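import Pool.Agent.Lib.MP_0430e4_lc.Exact.INP
import Pool.Agent.Lib.MP_0430e4_lc.QB.BMIN
import Pool.Agent.Lib.MP_0430e4_lc.QB.STRICT

/-!
# The exact exponent of Delsarte's linear program for binary codes

`sI`, `sII` and `C` are explicit rapidly convergent series in the parameter `t > 0`.
-/

set_option autoImplicit false

namespace Pool.Agent.Results.MP_0430e4_lc.DelsarteExponent

open Filter Topology

/-- `A(n, d)`: the largest size of a binary code of length `n` in which any two distinct words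
have Hamming distance at least `d`. -/
noncomputable def maxCode (n d : ℕ) : ℕ :=
  sSup {m : ℕ | ∃ C : Finset (Fin n → Bool),
    (∀ x ∈ C, ∀ y ∈ C, x ≠ y → d ≤ hammingDist x y) ∧ C.card = m}

/-- The value of the linear program of Delsarte for binary codes of length `n` and minimum
distance `d`: the supremum of `∑ β` over all `β ≥ 0` on `{0,1}^n` with `β 0 = 1`, `β x = 0` for
the words `x ≠ 0` of weight less than `d`, and nonnegative Fourier transform. -/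
noncomputable def delsarteLP (n d : ℕ) : ℝ :=
  sSup {s : ℝ | ∃ β : (Fin n → Bool) → ℝ, β (fun _ => false) = 1 ∧ (∀ x, 0 ≤ β x) ∧
    (∀ x, x ≠ (fun _ => false) → (Finset.univ.filter fun i => x i = true).card < d → β x = 0) ∧
    (∀ y : Fin n → Bool, 0 ≤ ∑ x, β x * ∏ i, (if x i = true ∧ y i = true then (-1 : ℝ) else 1)) ∧
    s = ∑ x, β x}

/-- The binary entropy function in bits. -/
noncomputable def H2 (x : ℝ) : ℝ := Real.binEntropy x / Real.log 2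

/-- `R(δ) = limsup (1/n) log₂ A(n, ⌈δ n⌉)`. -/
noncomputable def R (δ : ℝ) : ℝ :=
  limsup (fun n : ℕ => Real.logb 2 (maxCode n ⌈δ * n⌉₊) / n) atTop

/-- `h(x) = H₂(1/2 - √(1 - x) / 2)`. -/
noncomputable def h (x : ℝ) : ℝ := H2 (1 / 2 - 1 / 2 * Real.sqrt (1 - x))

/-- `B(δ)`, the second bound of McEliece, Rodemich, Rumsey and Welch. -/
noncomputable def B (δ : ℝ) : ℝ :=
  sInf ((fun u : ℝ => 1 + h (u ^ 2) - h (u ^ 2 + 2 * δ * u + 2 * δ)) '' Set.Ioc 0 (1 - 2 * δ))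

/-- The hyperbolic secant. -/
noncomputable def sech (x : ℝ) : ℝ := 1 / Real.cosh x

/-- `C(t) = ∑_{m ≥ 1} (-1)^(m-1) H₂(1 / (1 + e^(m t)))`. -/
noncomputable def C (t : ℝ) : ℝ :=
  ∑' m : ℕ, (-1 : ℝ) ^ m * H2 (1 / (1 + Real.exp ((m + 1) * t)))

/-- `(∑ sech² x) / (∑ sech x)`, both sums over `x ∈ (ℤ + 1/2) t`. -/
noncomputable def sOdd (t : ℝ) : ℝ :=
  (∑' j : ℤ, sech ((j + 1 / 2) * t) ^ 2) / ∑' j : ℤ, sech ((j + 1 / 2) * t)

/-- `(∑ sech² x) / (∑ sech x)`, both sums over `x ∈ ℤ t`. -/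
noncomputable def sEven (t : ℝ) : ℝ :=
  (∑' j : ℤ, sech (j * t) ^ 2) / ∑' j : ℤ, sech (j * t)

open Pool.Agent.Lib.MP_0430e4_lc

theorem maxCode_eq (n d : ℕ) : maxCode n d = Tensor.maxCode n d := rfl

theorem lp_eq (n d : ℕ) : delsarteLP n d = Impr.lpBound n d := rfl

theorem sech_eq (x : ℝ) : sech x = Exact.sech x := by
  unfold sech Exact.sech
  rw [one_div]

theorem C_eq (t : ℝ) : C t = Exact.cval t / Real.log 2 := by
  unfold C Exact.cval
  rw [← tsum_div_const]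
  apply tsum_congr
  intro m
  unfold H2 Exact.hm
  ring

theorem tsum_half {f : ℝ → ℝ} (hf : ∀ x, f (-x) = f x)
    (hs : Summable fun j : ℕ => f (j + 1 / 2)) :
    ∑' j : ℤ, f (j + 1 / 2) = 2 * ∑' j : ℕ, f (j + 1 / 2) := by
  have h2 : ∀ j : ℕ, f (((-((j : ℤ) + 1) : ℤ) : ℝ) + 1 / 2) = f (j + 1 / 2) := by
    intro j
    rw [← hf]
    congr 1
    push_cast
    ring
  have hs2 : Summable fun j : ℕ => f (((-((j : ℤ) + 1) : ℤ) : ℝ) + 1 / 2) := by
    simpa only [h2] using hs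
  have h1 := tsum_of_nat_of_neg_add_one (f := fun j : ℤ => f (j + 1 / 2)) (by simpa using hs) hs2
  rw [h1, two_mul]
  congr 1
  exact tsum_congr h2

theorem sOdd_eq {t : ℝ} (ht : 0 < t) : sOdd t = Exact.sI t := by
  unfold sOdd Exact.sI
  simp only [sech_eq]
  have h1 := tsum_half (f := fun x => Exact.sech (x * t))
    (fun x => by simp only [neg_mul]; exact Exact.sech_neg _) (Exact.summable_half ht)
  have h2 := tsum_half (f := fun x => Exact.sech (x * t) ^ 2)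
    (fun x => by simp only [neg_mul]; rw [Exact.sech_neg]) (Exact.summable_half_sq ht)
  rw [h1, h2, mul_div_mul_left _ _ two_ne_zero]

theorem sEven_eq (t : ℝ) : sEven t = Exact.sII t := by
  unfold sEven Exact.sII
  simp only [sech_eq]

theorem lt_B {δ : ℝ} (h0 : 0 < δ) (h1 : δ < 1 / 2)
    (hlt : ∀ u, 0 < u → u ≤ 1 - 2 * δ → Tensor.ell δ < QB.Fb δ u) : Tensor.ell δ < B δ := by
  obtain ⟨u0, hu0, hu1, hmin⟩ := QB.Fb_min h0 h1
  refine lt_of_lt_of_le (hlt u0 hu0 hu1) ?_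
  unfold B
  apply le_csInf
  · exact ⟨_, _, ⟨by linarith, le_rfl⟩, rfl⟩
  · rintro _ ⟨u, hu, rfl⟩
    exact hmin u hu.1 hu.2

theorem result : ∃ L : ℝ → ℝ,
    (∀ t : ℝ, 0 < t → L ((1 - sOdd t) / 2) = C t) ∧
    (∀ t : ℝ, 0 < t → L ((1 - sEven t) / 2) = 1 - C t) ∧
    L (1 / 2 - 1 / Real.pi) = 1 / 2 ∧
    (∀ δ : ℝ, 1 / 2 - 1 / Real.pi < δ → δ < 1 / 2 → ∃ t : ℝ, 0 < t ∧ δ = (1 - sOdd t) / 2) ∧
    (∀ δ : ℝ, 0 < δ → δ < 1 / 2 - 1 / Real.pi → ∃ t : ℝ, 0 < t ∧ δ = (1 - sEven t) / 2) ∧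
    ∀ δ : ℝ, 0 < δ → δ < 1 / 2 →
      Tendsto (fun n : ℕ => Real.logb 2 (delsarteLP n ⌈δ * n⌉₊) / n) atTop (𝓝 (L δ)) ∧
      R δ ≤ L δ ∧ L δ < B δ := by
  have e : 2 / Real.pi = 2 * (1 / Real.pi) := by ring
  refine ⟨Tensor.ell, ?_, ?_, Exact.fin_mid_ell Exact.inputs, ?_, ?_, ?_⟩
  · intro t ht
    rw [sOdd_eq ht, C_eq]
    exact (Exact.fin_I Exact.inputs ht).1
  · intro t ht
    rw [sEven_eq, C_eq]
    exact (Exact.fin_II Exact.inputs ht).1
  · intro δ h1 h2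
    obtain ⟨t, ht, hts⟩ := Exact.exists_sI (s := 1 - 2 * δ) (by linarith) (by linarith)
    refine ⟨t, ht, ?_⟩
    rw [sOdd_eq ht, hts]
    ring
  · intro δ h1 h2
    obtain ⟨t, ht, hts⟩ := Exact.exists_sII (s := 1 - 2 * δ) (by linarith) (by linarith)
    refine ⟨t, ht, ?_⟩
    rw [sEven_eq, hts]
    ring
  · intro δ h1 h2
    exact ⟨Exact.fin_tendsto Exact.inputs h1 h2, Tensor.limsup_le_ell h1 h2,
      lt_B h1 h2 fun u hu0 hu1 => QB.ell_lt_Fb h1 hu0 hu1⟩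

end Pool.Agent.Results.MP_0430e4_lc.DelsarteExponent
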