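import Pool.Agent.Lib.MP_0430e4_lc.Hier.ExpLevel

/-!
# Semidefinite hierarchies of small exponential level have the exponent of Delsarte's linear program
-/

set_option autoImplicit false

namespace Pool.Agent.Results.MP_0430e4_lc.HierarchyExponent

open Filter Topology

/-- `A(n, d)`: the largest size of a binary code of length `n` in which any two distinct words
have Hamming distance at least `d`. -/
noncomputable def maxCode (n d : ℕ) : ℕ :=
  sSup {m : ℕ | ∃ C : Finset (Fin n → Bool),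
    (∀ x ∈ C, ∀ y ∈ C, x ≠ y → d ≤ hammingDist x y) ∧ C.card = m}

/-- The value of the linear program of Delsarte for binary codes of length `n` and minimum
distance `d`: the supremum of `∑ β` over all `β ≥ 0` on `{0,1}^n` with `β 0 = 1`, `β x = 0` for
the words `x ≠ 0` of weight less than `d`, and nonnegative Fourier transform. -/
noncomputable def delsarteLP (n d : ℕ) : ℝ :=
  sSup {s : ℝ | ∃ β : (Fin n → Bool) → ℝ, β (fun _ => false) = 1 ∧ (∀ x, 0 ≤ β x) ∧
    (∀ x, x ≠ (fun _ => false) → (Finset.univ.filter fun i => x i = true).card < d → β x = 0) ∧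
    (∀ y : Fin n → Bool, 0 ≤ ∑ x, β x * ∏ i, (if x i = true ∧ y i = true then (-1 : ℝ) else 1)) ∧
    s = ∑ x, β x}

/-- The entry `(a, b)` of the moment matrix of `y`, conditioned on `T` being inside and `N` outside;
the indices `a`, `b` are `none` for the empty set and `some u` for the set `{u}`. -/
def condMoment {n : ℕ} (y : Finset (Fin n → Bool) → ℝ) (T N : Finset (Fin n → Bool))
    (a b : Option (Fin n → Bool)) : ℝ :=
  ∑ N' ∈ N.powerset, (-1) ^ N'.card * y (T ∪ N' ∪ a.toFinset ∪ b.toFinset)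

/-- `y` (on sets of words of length `n`) is a family of pseudo-moments of level `k` for codes of
minimum distance `d`: `y ∅ = 1`, `y S = 0` if `S` contains two different words at distance less
than `d`, and the moment matrix conditioned on `T`, `N` is positive semidefinite for all disjoint
`T`, `N` with `|T| + |N| ≤ k - 2`. -/
def IsPseudo (k n d : ℕ) (y : Finset (Fin n → Bool) → ℝ) : Prop :=
  y ∅ = 1 ∧
  (∀ S : Finset (Fin n → Bool), (∃ u ∈ S, ∃ v ∈ S, u ≠ v ∧ hammingDist u v < d) → y S = 0) ∧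
  ∀ T N : Finset (Fin n → Bool), Disjoint T N → T.card + N.card + 2 ≤ k →
    ∀ f : Option (Fin n → Bool) → ℝ, 0 ≤ ∑ a, ∑ b, f a * f b * condMoment y T N a b

/-- The semidefinite bound of level `k` for binary codes of length `n` and minimum distance `d`
(Gvozdenović, Laurent, Vallentin). -/
noncomputable def sdp (k n d : ℕ) : ℝ :=
  sSup {s : ℝ | ∃ y : Finset (Fin n → Bool) → ℝ, IsPseudo k n d y ∧ s = ∑ x, y {x}}

/-- The binary entropy function in bits. -/
noncomputable def H2 (x : ℝ) : ℝ := Real.binEntropy x / Real.log 2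

/-- The hyperbolic secant. -/
noncomputable def sech (x : ℝ) : ℝ := 1 / Real.cosh x

/-- `C(t) = ∑_{m ≥ 1} (-1)^(m-1) H₂(1 / (1 + e^(m t)))`. -/
noncomputable def C (t : ℝ) : ℝ :=
  ∑' m : ℕ, (-1 : ℝ) ^ m * H2 (1 / (1 + Real.exp ((m + 1) * t)))

/-- `(∑ sech² x) / (∑ sech x)`, both sums over `x ∈ (ℤ + 1/2) t`. -/
noncomputable def sOdd (t : ℝ) : ℝ :=
  (∑' j : ℤ, sech ((j + 1 / 2) * t) ^ 2) / ∑' j : ℤ, sech ((j + 1 / 2) * t)

/-- `(∑ sech² x) / (∑ sech x)`, both sums over `x ∈ ℤ t`. -/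
noncomputable def sEven (t : ℝ) : ℝ :=
  (∑' j : ℤ, sech (j * t) ^ 2) / ∑' j : ℤ, sech (j * t)

open Pool.Agent.Lib.MP_0430e4_lc

theorem maxCode_eq (n d : ℕ) : maxCode n d = Tensor.maxCode n d := rfl

theorem lp_eq (n d : ℕ) : delsarteLP n d = Impr.lpBound n d := rfl

theorem sech_eq (x : ℝ) : sech x = Exact.sech x := by
  unfold sech Exact.sech
  rw [one_div]

theorem C_eq (t : ℝ) : C t = Exact.cval t / Real.log 2 := by
  unfold C Exact.cval
  rw [← tsum_div_const]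
  apply tsum_congr
  intro m
  unfold H2 Exact.hm
  ring

theorem tsum_half {f : ℝ → ℝ} (hf : ∀ x, f (-x) = f x)
    (hs : Summable fun j : ℕ => f (j + 1 / 2)) :
    ∑' j : ℤ, f (j + 1 / 2) = 2 * ∑' j : ℕ, f (j + 1 / 2) := by
  have h2 : ∀ j : ℕ, f (((-((j : ℤ) + 1) : ℤ) : ℝ) + 1 / 2) = f (j + 1 / 2) := by
    intro j
    rw [← hf]
    congr 1
    push_cast
    ring
  have hs2 : Summable fun j : ℕ => f (((-((j : ℤ) + 1) : ℤ) : ℝ) + 1 / 2) := by
    simpa only [h2] using hs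
  have h1 := tsum_of_nat_of_neg_add_one (f := fun j : ℤ => f (j + 1 / 2)) (by simpa using hs) hs2
  rw [h1, two_mul]
  congr 1
  exact tsum_congr h2

theorem sOdd_eq {t : ℝ} (ht : 0 < t) : sOdd t = Exact.sI t := by
  unfold sOdd Exact.sI
  simp only [sech_eq]
  have h1 := tsum_half (f := fun x => Exact.sech (x * t))
    (fun x => by simp only [neg_mul]; exact Exact.sech_neg _) (Exact.summable_half ht)
  have h2 := tsum_half (f := fun x => Exact.sech (x * t) ^ 2)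
    (fun x => by simp only [neg_mul]; rw [Exact.sech_neg]) (Exact.summable_half_sq ht)
  rw [h1, h2, mul_div_mul_left _ _ two_ne_zero]

theorem sEven_eq (t : ℝ) : sEven t = Exact.sII t := by
  unfold sEven Exact.sII
  simp only [sech_eq]

theorem sdp_eq (k n d : ℕ) : sdp k n d = Hier.sdp k n d := by
  unfold sdp Hier.sdp
  congr 1
  ext s
  constructor
  · rintro ⟨y, ⟨h1, h2, h3⟩, h4⟩
    exact ⟨y, ⟨h1, h3⟩, h2, h4⟩
  · rintro ⟨y, ⟨h1, h3⟩, h2, h4⟩
    exact ⟨y, ⟨h1, h2, h3⟩, h4⟩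

theorem H2_eq (x : ℝ) : H2 x = Las.H2 x := rfl

/-- For `k ≥ 3` the bound of level `k` lies between the size of the best code and the value of
Delsarte's linear program. For every `δ` the exponent `L δ` of the linear program is larger than
the Gilbert-Varshamov exponent, and for every `ε > 0` there is `κ > 0` such that all levels
`k ≤ 2 ^ (κ n)` have, up to `ε`, the exponent `L δ`. -/
theorem result : ∃ L : ℝ → ℝ,
    (∀ t : ℝ, 0 < t → L ((1 - sOdd t) / 2) = C t) ∧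
    (∀ t : ℝ, 0 < t → L ((1 - sEven t) / 2) = 1 - C t) ∧
    L (1 / 2 - 1 / Real.pi) = 1 / 2 ∧
    (∀ δ : ℝ, 1 / 2 - 1 / Real.pi < δ → δ < 1 / 2 → ∃ t : ℝ, 0 < t ∧ δ = (1 - sOdd t) / 2) ∧
    (∀ δ : ℝ, 0 < δ → δ < 1 / 2 - 1 / Real.pi → ∃ t : ℝ, 0 < t ∧ δ = (1 - sEven t) / 2) ∧
    (∀ k n d : ℕ, 3 ≤ k → (maxCode n d : ℝ) ≤ sdp k n d ∧ sdp k n d ≤ delsarteLP n d) ∧
    ∀ δ : ℝ, 0 < δ → δ < 1 / 2 →
      1 - H2 δ < L δ ∧
      Tendsto (fun n : ℕ => Real.logb 2 (delsarteLP n ⌈δ * n⌉₊) / n) atTop (𝓝 (L δ)) ∧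
      ∀ ε : ℝ, 0 < ε → ∃ κ : ℝ, 0 < κ ∧ ∃ n0 : ℕ, ∀ n ≥ n0, ∀ k : ℕ,
        3 ≤ k → (k : ℝ) ≤ 2 ^ (κ * n) →
          (2 : ℝ) ^ ((n : ℝ) * (L δ - ε)) ≤ sdp k n ⌈δ * n⌉₊ ∧
          sdp k n ⌈δ * n⌉₊ ≤ (2 : ℝ) ^ ((n : ℝ) * (L δ + ε)) := by
  have e : 2 / Real.pi = 2 * (1 / Real.pi) := by ring
  refine ⟨Tensor.ell, ?_, ?_, Exact.fin_mid_ell Exact.inputs, ?_, ?_, ?_, ?_⟩
  · intro t ht
    rw [sOdd_eq ht, C_eq]
    exact (Exact.fin_I Exact.inputs ht).1
  · intro t ht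
    rw [sEven_eq, C_eq]
    exact (Exact.fin_II Exact.inputs ht).1
  · intro δ h1 h2
    obtain ⟨t, ht, hts⟩ := Exact.exists_sI (s := 1 - 2 * δ) (by linarith) (by linarith)
    refine ⟨t, ht, ?_⟩
    rw [sOdd_eq ht, hts]
    ring
  · intro δ h1 h2
    obtain ⟨t, ht, hts⟩ := Exact.exists_sII (s := 1 - 2 * δ) (by linarith) (by linarith)
    refine ⟨t, ht, ?_⟩
    rw [sEven_eq, hts]
    ring
  · intro k n d hk
    rw [sdp_eq, maxCode_eq, lp_eq]
    exact ⟨Hier.maxCode_le_sdp (by omega), Hier.sdp_le_lp hk⟩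
  · intro δ h1 h2
    refine ⟨?_, Exact.fin_tendsto Exact.inputs h1 h2, ?_⟩
    · rw [H2_eq]
      exact Hier.gv_lt_ell h1 h2
    · intro ε hε
      simp only [sdp_eq]
      exact Hier.exp_level h1 h2 hε

end Pool.Agent.Results.MP_0430e4_lc.HierarchyExponent
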