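import Pool.Agent.Lib.MP_0430e4_lc.Lsn.Find
import Pool.Agent.Lib.MP_0430e4_lc.Las.TRIV
import Pool.Agent.Lib.MP_0430e4_lc.L3.OUT

/-!
# The Lasserre hierarchy for binary codes up to level `c n / log n`
-/

set_option autoImplicit false

namespace Pool.Agent.Results.MP_0430e4_lc.LasserreLevels

/-- `A(n, d)`: the largest size of a binary code of length `n` in which any two distinct words
have Hamming distance at least `d`. -/
noncomputable def maxCode (n d : ℕ) : ℕ :=
  sSup {m : ℕ | ∃ C : Finset (Fin n → Bool),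
    (∀ x ∈ C, ∀ y ∈ C, x ≠ y → d ≤ hammingDist x y) ∧ C.card = m}

/-- The value of the linear program of Delsarte for binary codes of length `n` and minimum
distance `d`: the supremum of `∑ β` over all `β ≥ 0` on `{0,1}^n` with `β 0 = 1`, `β x = 0` for
the words `x ≠ 0` of weight less than `d`, and nonnegative Fourier transform. -/
noncomputable def delsarteLP (n d : ℕ) : ℝ :=
  sSup {s : ℝ | ∃ β : (Fin n → Bool) → ℝ, β (fun _ => false) = 1 ∧ (∀ x, 0 ≤ β x) ∧
    (∀ x, x ≠ (fun _ => false) → (Finset.univ.filter fun i => x i = true).card < d → β x = 0) ∧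
    (∀ y : Fin n → Bool, 0 ≤ ∑ x, β x * ∏ i, (if x i = true ∧ y i = true then (-1 : ℝ) else 1)) ∧
    s = ∑ x, β x}

/-- The sets of at most `t` words of length `n`. -/
def setsUpTo (t n : ℕ) : Finset (Finset (Fin n → Bool)) :=
  Finset.univ.filter fun A => A.card ≤ t

/-- `y` (on sets of words of length `n`) is a family of pseudo-moments of level `t` for codes of
minimum distance `d`: `y ∅ = 1`, `y S = 0` if `S` contains two different words at distance less
than `d`, and the moment matrix `y (A ∪ B)`, indexed by the sets `A`, `B` of at most `t` words, is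
positive semidefinite. -/
def IsPseudo (t n d : ℕ) (y : Finset (Fin n → Bool) → ℝ) : Prop :=
  y ∅ = 1 ∧
  (∀ S : Finset (Fin n → Bool), (∃ u ∈ S, ∃ v ∈ S, u ≠ v ∧ hammingDist u v < d) → y S = 0) ∧
  ∀ f : Finset (Fin n → Bool) → ℝ,
    0 ≤ ∑ A ∈ setsUpTo t n, ∑ B ∈ setsUpTo t n, f A * f B * y (A ∪ B)

/-- Level `t` of the Lasserre hierarchy for binary codes of length `n` and minimum distance `d`. -/
noncomputable def lasserre (t n d : ℕ) : ℝ :=
  sSup {s : ℝ | ∃ y : Finset (Fin n → Bool) → ℝ, IsPseudo t n d y ∧ s = ∑ x, y {x}}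

/-- The binary entropy function in bits. -/
noncomputable def H2 (x : ℝ) : ℝ := Real.binEntropy x / Real.log 2

open Pool.Agent.Lib.MP_0430e4_lc

theorem lasserre_eq (t n d : ℕ) : lasserre t n d = Las.las t n d := by
  unfold lasserre Las.las
  congr 1
  ext s
  constructor
  · rintro ⟨y, ⟨h1, h2, h3⟩, h4⟩
    exact ⟨y, h1, h2, h3, h4⟩
  · rintro ⟨y, h1, h2, h3, h4⟩
    exact ⟨y, ⟨h1, h2, h3⟩, h4⟩

theorem lp_eq (n d : ℕ) : delsarteLP n d = Impr.lpBound n d := rfl

/-- The gain at the level `t ≤ c n / log n` is more than any power of `n`. -/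
theorem power_gain {δ A : ℝ} (h0 : 0 < δ) (h1 : δ < 1 / 2) :
    ∃ c : ℝ, 0 < c ∧ ∃ n0 : ℕ, ∀ n ≥ n0, ∀ t : ℕ, 1 ≤ t → (t : ℝ) ≤ c * n / Real.log n →
      (n : ℝ) ^ A * (2 : ℝ) ^ ((n : ℝ) * (1 - Las.H2 δ)) ≤ Las.las t n ⌈δ * n⌉₊ := by
  have hgap := Las.gap h0 h1
  set g : ℝ := (Las.H2 (1 / 2 - Real.sqrt (δ * (1 - δ))) - (1 - Las.H2 δ)) / 4 with hg
  have hg0 : 0 < g := by rw [hg]; linarith
  obtain ⟨c, hc, n0, h⟩ := Lsn.las_lower h0 h1 (γ := g) (by rw [hg]; linarith)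
  have hl2 : 0 < Real.log 2 := Real.log_pos (by norm_num)
  have hA : 0 < max A 1 := lt_max_of_lt_right one_pos
  refine ⟨min c (g * Real.log 2 / max A 1), lt_min hc (by positivity), max n0 3,
    fun n hn t ht htc => ?_⟩
  have hn3 : 3 ≤ n := (le_max_right _ _).trans hn
  have hn3R : (3 : ℝ) ≤ n := by exact_mod_cast hn3
  have hlog : 0 < Real.log n := Real.log_pos (by linarith)
  have htR : (0 : ℝ) < t := by exact_mod_cast ht
  have hle : ∀ x, min c (g * Real.log 2 / max A 1) ≤ x → (t : ℝ) ≤ x * n / Real.log n := by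
    intro x hx
    refine htc.trans ?_
    gcongr
  have h2 := h n ((le_max_left _ _).trans hn) t ht (hle c (min_le_left _ _))
  refine le_trans ?_ h2
  rw [mul_add, Real.rpow_add (by norm_num), mul_comm]
  refine mul_le_mul_of_nonneg_left ?_ (Real.rpow_nonneg (by norm_num) _)
  have h3 := hle _ (min_le_right _ _)
  rw [le_div_iff₀ hlog] at h3
  have h4 : max A 1 * (t * Real.log n) ≤ g * Real.log 2 * n := by
    have h5 : g * Real.log 2 / max A 1 * n = g * Real.log 2 * n / max A 1 := by ring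
    rw [h5, le_div_iff₀ hA] at h3
    linarith
  rw [Real.rpow_def_of_pos (by linarith), Real.rpow_def_of_pos (by norm_num), Real.exp_le_exp]
  have h6 : Real.log n * A ≤ Real.log n * max A 1 :=
    mul_le_mul_of_nonneg_left (le_max_left _ _) hlog.le
  refine h6.trans ?_
  have h7 : Real.log 2 * ((n : ℝ) * (g / t)) = g * Real.log 2 * n / t := by ring
  rw [h7, le_div_iff₀ htR]
  linarith

/-- For every `0 < δ < 1/2` and every `γ` below half the gap between the Gilbert-Varshamov bound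
and the bound of McEliece, Rodemich, Rumsey and Welch, the Lasserre bound of level `t` is at least
`2 ^ (n (1 - H₂ δ + γ / t))`, for all large `n` and all levels `t ≤ c n / log n`. So for every `A`
it is at least `n ^ A * 2 ^ (n (1 - H₂ δ))` for all levels `t ≤ c n / log n` (with another `c`). For
every fixed level `t` and every `ζ > 0`, if `δ < 1/2` is close to `1/2` then the Lasserre bound of
level `t` is at least the power `1 - ζ` of the bound of Delsarte's linear program. The bounds of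
all levels lie above `A(n, d)`, they decrease with the level, and from level two on they are at
least as strong as Delsarte's linear program. -/
theorem result :
    (∀ δ γ : ℝ, 0 < δ → δ < 1 / 2 →
      γ < (H2 (1 / 2 - Real.sqrt (δ * (1 - δ))) - (1 - H2 δ)) / 2 →
      ∃ c : ℝ, 0 < c ∧ ∃ n0 : ℕ, ∀ n ≥ n0, ∀ t : ℕ, 1 ≤ t → (t : ℝ) ≤ c * n / Real.log n →
        (2 : ℝ) ^ ((n : ℝ) * (1 - H2 δ + γ / t)) ≤ lasserre t n ⌈δ * n⌉₊) ∧
    (∀ δ A : ℝ, 0 < δ → δ < 1 / 2 →
      ∃ c : ℝ, 0 < c ∧ ∃ n0 : ℕ, ∀ n ≥ n0, ∀ t : ℕ, 1 ≤ t → (t : ℝ) ≤ c * n / Real.log n →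
        (n : ℝ) ^ A * (2 : ℝ) ^ ((n : ℝ) * (1 - H2 δ)) ≤ lasserre t n ⌈δ * n⌉₊) ∧
    (∀ δ : ℝ, 0 < δ → δ < 1 / 2 → 1 - H2 δ < H2 (1 / 2 - Real.sqrt (δ * (1 - δ)))) ∧
    (∀ t : ℕ, 1 ≤ t → ∀ ζ : ℝ, 0 < ζ → ∃ δ₀ : ℝ, δ₀ < 1 / 2 ∧
      ∀ δ : ℝ, δ₀ < δ → δ < 1 / 2 → ∃ n0 : ℕ, ∀ n ≥ n0,
        delsarteLP n ⌈δ * n⌉₊ ^ (1 - ζ) ≤ lasserre t n ⌈δ * n⌉₊) ∧
    ∀ t n d : ℕ, 1 ≤ t → (maxCode n d : ℝ) ≤ lasserre t n d ∧
      lasserre (t + 1) n d ≤ lasserre t n d ∧ lasserre (t + 1) n d ≤ delsarteLP n d := by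
  refine ⟨?_, ?_, ?_, ?_, ?_⟩
  · intro δ γ h0 h1 hγ
    simp only [lasserre_eq]
    exact Lsn.las_lower h0 h1 hγ
  · intro δ A h0 h1
    simp only [lasserre_eq]
    exact power_gain h0 h1
  · intro δ h0 h1
    exact Las.gap h0 h1
  · intro t ht ζ hζ
    simp only [lasserre_eq, lp_eq]
    exact L3.out_lp ht hζ
  · intro t n d ht
    rw [lasserre_eq, lasserre_eq]
    exact ⟨Las.maxCode_le_las ht n d, Las.las_anti ht (by omega) n d,
      Las.las_le_lp (by omega) n d⟩

end Pool.Agent.Results.MP_0430e4_lc.LasserreLevels
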