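import Pool.Agent.Lib.MP_0430e4_lc.BY.P.N14
import Pool.Agent.Lib.MP_0430e4_lc.BY.P.ALow2
import Pool.Agent.Lib.MP_0430e4_lc.BY.H.Main
import Pool.Agent.Lib.MP_0430e4_lc.BY.Three
import Pool.Agent.Lib.MP_0430e4_lc.BY.E
import Pool.Agent.Lib.MP_0430e4_lc.BY.P.VEx
import Pool.Agent.Lib.MP_0430e4_lc.QB.BMIN
import Pool.Agent.Lib.MP_0430e4_lc.QB.STRICT
import Pool.Agent.Lib.MP_0430e4_lc.AC.Unif
import Pool.Agent.Lib.MP_0430e4_lc.AC.Y2Z
import Pool.Agent.Lib.MP_0430e4_lc.YP.BaseOf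

/-!
# Delsarte's linear programming bound is never asymptotically tight for binary codes

For every relative distance `0 < δ < 1/2` the asymptotic rate `R(δ)` of the best binary codes is
strictly smaller than the exponent of Delsarte's linear program.
-/

set_option autoImplicit false

namespace Pool.Agent.Results.MP_0430e4_lc.NeverTight

open Filter Topology

/-- `A(n, d)`: the largest size of a binary code of length `n` in which any two distinct words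
have Hamming distance at least `d`. -/
noncomputable def maxCode (n d : ℕ) : ℕ :=
  sSup {m : ℕ | ∃ C : Finset (Fin n → Bool),
    (∀ x ∈ C, ∀ y ∈ C, x ≠ y → d ≤ hammingDist x y) ∧ C.card = m}

/-- The value of the linear program of Delsarte for binary codes of length `n` and minimum
distance `d`: the supremum of `∑ β` over all `β ≥ 0` on `{0,1}^n` with `β 0 = 1`, `β x = 0` for
the words `x ≠ 0` of weight less than `d`, and nonnegative Fourier transform. -/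
noncomputable def delsarteLP (n d : ℕ) : ℝ :=
  sSup {s : ℝ | ∃ β : (Fin n → Bool) → ℝ, β (fun _ => false) = 1 ∧ (∀ x, 0 ≤ β x) ∧
    (∀ x, x ≠ (fun _ => false) → (Finset.univ.filter fun i => x i = true).card < d → β x = 0) ∧
    (∀ y : Fin n → Bool, 0 ≤ ∑ x, β x * ∏ i, (if x i = true ∧ y i = true then (-1 : ℝ) else 1)) ∧
    s = ∑ x, β x}

/-- The binary entropy function in bits. -/
noncomputable def H2 (x : ℝ) : ℝ := Real.binEntropy x / Real.log 2

/-- `R(δ) = limsup (1/n) log₂ A(n, ⌈δ n⌉)`. -/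
noncomputable def R (δ : ℝ) : ℝ :=
  limsup (fun n : ℕ => Real.logb 2 (maxCode n ⌈δ * n⌉₊) / n) atTop

/-- `h(x) = H₂(1/2 - √(1 - x) / 2)`. -/
noncomputable def h (x : ℝ) : ℝ := H2 (1 / 2 - 1 / 2 * Real.sqrt (1 - x))

/-- `B(δ)`, the second bound of McEliece, Rodemich, Rumsey and Welch. -/
noncomputable def B (δ : ℝ) : ℝ :=
  sInf ((fun u : ℝ => 1 + h (u ^ 2) - h (u ^ 2 + 2 * δ * u + 2 * δ)) '' Set.Ioc 0 (1 - 2 * δ))

open Pool.Agent.Lib.MP_0430e4_lc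

theorem lt_B {δ : ℝ} (h0 : 0 < δ) (h1 : δ < 1 / 2) : Tensor.ell δ < B δ := by
  obtain ⟨u0, hu0, hu1, hmin⟩ := QB.Fb_min h0 h1
  refine lt_of_lt_of_le (QB.ell_lt_Fb h0 hu0 hu1) ?_
  unfold B
  apply le_csInf
  · exact ⟨_, _, ⟨by linarith, le_rfl⟩, rfl⟩
  · rintro _ ⟨u, hu, rfl⟩
    exact hmin u hu.1 hu.2

theorem lt_ell {δ : ℝ} (h0 : 0 < δ) (h1 : δ < 1 / 2) : BY.Rr δ < Tensor.ell δ := by
  rcases lt_trichotomy δ (1 / 2 - 1 / Real.pi) with h | h | h
  · exact AC.below_of1 AC.forcedS1 h0 h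
  · obtain ⟨c, hc, hb⟩ := BY.beyond_of_ThmM
      (BY.thmM (BY.existsGood_of_V BY.existsV) BY.HA_holds BY.HB_holds BY.HHigh_holds BY.gr_tenth)
      BY.hIII
    have h2 : BY.Rr δ ≤ Tensor.ell δ - c := hb δ (by rw [h, sub_self, abs_zero]; exact hc)
    linarith
  · exact AC.above_of YP.forcedV h h1

theorem result : ∃ L : ℝ → ℝ,
    (∀ δ : ℝ, 0 < δ → δ < 1 / 2 →
      Tendsto (fun n : ℕ => Real.logb 2 (delsarteLP n ⌈δ * n⌉₊) / n) atTop (𝓝 (L δ)) ∧
      R δ < L δ ∧ L δ < B δ) ∧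
    ∀ a b : ℝ, 0 < a → b < 1 / 2 →
      ∃ c : ℝ, 0 < c ∧ ∀ δ : ℝ, a ≤ δ → δ ≤ b → R δ ≤ L δ - c :=
  ⟨Tensor.ell, fun _ h0 h1 => ⟨Exact.fin_tendsto Exact.inputs h0 h1, lt_ell h0 h1, lt_B h0 h1⟩,
    fun _ _ ha hb => AC.un_gap ha fun _ h0 h1 => lt_ell (ha.trans_le h0) (h1.trans_lt hb)⟩

end Pool.Agent.Results.MP_0430e4_lc.NeverTight
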